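import Pool.Agent.H947R3.GM.Idx

/-!
# Prime gaps after the primes whose index is a multiple of `n`

`Good n q F h`: for all `r` in `F`, all `a` coprime to `q` and all `b` there are infinitely many
indices `m ≡ b (mod n)` such that the prime `p_m` is `a` modulo `q` and the next prime is
`p_m + q * (h * r)`.
-/

namespace Pool.Agent.Results.MP_be93de_nt.GapsAtMultiples

open Pool.Agent.H672R3.Sim Pool.Agent.H947R3.GM

/-- the `m`-th prime, `P 1 = 2`, `P 2 = 3`, ... -/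
noncomputable def P (m : ℕ) : ℕ := Nat.nth Nat.Prime (m - 1)

/-- for all `r` in `F`, all `a` coprime to `q` and all residue classes `b` modulo `n` there are
infinitely many `m ≡ b (mod n)` such that `p_m ≡ a (mod q)` and `p_{m+1} = p_m + q h r` -/
def Good (n q : ℕ) (F : Finset ℕ) (h : ℕ) : Prop :=
  ∀ r ∈ F, ∀ a : ℕ, Nat.Coprime a q → ∀ b : ℕ,
    {m : ℕ | 1 ≤ m ∧ m ≡ b [MOD n] ∧ P m ≡ a [MOD q] ∧ P (m + 1) = P m + q * (h * r)}.Infinite

theorem result (n q : ℕ) (hn : 0 < n) (hq : 0 < q) (F : Finset ℕ) (hF : 0 ∉ F) :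
    ∃ C : ℕ,
      -- every set of `C` integers has two elements whose distance is good
      (∀ S : Finset ℤ, C ≤ S.card → ∃ x ∈ S, ∃ y ∈ S, x ≠ y ∧ Good n q F (x - y).natAbs) ∧
      -- every infinite set has an infinite subset all of whose distances are good
      (∀ X : Set ℤ, X.Infinite → ∃ Y : Set ℤ, Y ⊆ X ∧ Y.Infinite ∧
        ∀ x ∈ Y, ∀ y ∈ Y, x ≠ y → Good n q F (x - y).natAbs) ∧
      -- the good numbers are multiplicatively syndetic
      (∀ m : ℕ, 1 ≤ m → ∃ k : ℕ, 1 ≤ k ∧ k ≤ C ∧ Good n q F (k * m)) ∧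
      -- the good numbers are syndetic
      (∀ x : ℕ, ∃ h : ℕ, x < h ∧ h ≤ x + C ∧ Good n q F h) := by
  classical
  obtain ⟨C₁, h₁⟩ := delta_allI hq hn F hF
  have h : DeltaStar (Good n q F) C₁ := by
    intro S hS
    obtain ⟨x, hx, y, hy, hxy, hg⟩ := h₁ S hS
    refine ⟨x, hx, y, hy, hxy, fun r hr a ha b => ?_⟩
    have h2 : {m : ℕ | m ≡ b + (n - 1) [MOD n] ∧ Nat.nth Nat.Prime m ≡ a [MOD q] ∧
        Nat.nth Nat.Prime (m + 1) = Nat.nth Nat.Prime m + q * ((x - y).natAbs * r)}.Infinite :=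
      hg r hr a ha (b + (n - 1))
    refine Set.infinite_of_injOn_mapsTo (f := fun m => m + 1)
      (fun _ _ _ _ h => Nat.add_right_cancel h) ?_ h2
    rintro m ⟨hm1, hm2, hm3⟩
    refine ⟨Nat.le_add_left 1 m, ?_, ?_, ?_⟩
    · have e : b + (n - 1) + 1 = b + n := by omega
      have h3 := hm1.add_right 1
      rw [e] at h3
      exact h3.trans (by simp [Nat.ModEq])
    · simpa [P] using hm2
    · simpa [P] using hm3
  obtain ⟨L, hL⟩ := add_synd h
  refine ⟨max C₁ L, fun S hS => h S ((le_max_left _ _).trans hS), fun X hX => ?_,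
    fun m hm => ?_, fun x => ?_⟩
  · have : Infinite X := hX.to_subtype
    obtain ⟨Y, hY, hYg⟩ := sim_inf h 1 X (fun _ x => (x : ℤ))
      (fun _ => Subtype.val_injective)
    refine ⟨Subtype.val '' Y, ?_, hY.image Subtype.val_injective.injOn, ?_⟩
    · rintro _ ⟨x, _, rfl⟩
      exact x.2
    · rintro _ ⟨x, hx, rfl⟩ _ ⟨y, hy, rfl⟩ hxy
      exact hYg x hx y hy (fun h => hxy (by rw [h])) 0
  · obtain ⟨k, hk1, hk2, hk⟩ := mult_synd h m hm
    exact ⟨k, hk1, hk2.trans (le_max_left _ _), hk⟩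
  · obtain ⟨k, hk1, hk2, hk⟩ := hL x
    exact ⟨k, hk1, hk2.trans (Nat.add_le_add_left (le_max_right _ _) x), hk⟩

end Pool.Agent.Results.MP_be93de_nt.GapsAtMultiples
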